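import Mathlib

/-!
Real Banach lattices, lattice homomorphisms, projectivity, topological order units, freeness.
-/

namespace Pool.Agent.MP_be51b2_an

universe u v w

/-- A real Banach lattice: a real Banach space that is a vector lattice with a solid norm. -/
class IsBanachLattice (X : Type u) [NormedAddCommGroup X] [NormedSpace ℝ X] [Lattice X] : Prop
    extends IsOrderedAddMonoid X, PosSMulMono ℝ X, HasSolidNorm X, CompleteSpace X

/-- A (bounded) linear map preserving finite suprema and infima. -/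
def IsLatticeHom {X : Type u} {Y : Type v} [NormedAddCommGroup X] [NormedSpace ℝ X] [Lattice X]
    [NormedAddCommGroup Y] [NormedSpace ℝ Y] [Lattice Y] (T : X →L[ℝ] Y) : Prop :=
  ∀ x y : X, T (x ⊔ y) = T x ⊔ T y ∧ T (x ⊓ y) = T x ⊓ T y

/-- `Q : X → Y` is the quotient map of `X` by the closed ideal `J = ker Q`: a surjective lattice
homomorphism such that `Y` carries the quotient norm `‖Q x‖ = dist (x, J)`. -/
def IsQuotientHom {X : Type u} {Y : Type v} [NormedAddCommGroup X] [NormedSpace ℝ X] [Lattice X]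
    [NormedAddCommGroup Y] [NormedSpace ℝ Y] [Lattice Y] (Q : X →L[ℝ] Y) : Prop :=
  IsLatticeHom Q ∧ Function.Surjective Q ∧ ∀ x : X, ‖Q x‖ = Metric.infDist x {z | Q z = 0}

/-- Projectivity: lattice homomorphisms into a quotient lift with norm at most `(1 + ε) ‖T‖`. -/
def IsProjective (P : Type) [NormedAddCommGroup P] [NormedSpace ℝ P] [Lattice P] : Prop :=
  ∀ (X : Type) [NormedAddCommGroup X] [NormedSpace ℝ X] [Lattice X] [IsBanachLattice X]
    (Y : Type) [NormedAddCommGroup Y] [NormedSpace ℝ Y] [Lattice Y] [IsBanachLattice Y]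
    (Q : X →L[ℝ] Y), IsQuotientHom Q →
    ∀ T : P →L[ℝ] Y, IsLatticeHom T → ∀ ε : ℝ, 0 < ε →
      ∃ S : P →L[ℝ] X, IsLatticeHom S ∧ Q.comp S = T ∧ ‖S‖ ≤ (1 + ε) * ‖T‖

/-- A closed ideal: a closed solid linear subspace. -/
def IsClosedIdeal {X : Type u} [NormedAddCommGroup X] [NormedSpace ℝ X] [Lattice X]
    (J : Submodule ℝ X) : Prop :=
  IsClosed (J : Set X) ∧ ∀ x y : X, |x| ≤ |y| → y ∈ J → x ∈ J

/-- `e ≥ 0` is a topological order unit if the only closed ideal containing `e` is the whole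
space. -/
def IsTopOrderUnit {X : Type u} [NormedAddCommGroup X] [NormedSpace ℝ X] [Lattice X]
    (e : X) : Prop :=
  0 ≤ e ∧ ∀ J : Submodule ℝ X, IsClosedIdeal J → e ∈ J → J = ⊤

/-- `δ : A → P` exhibits `P` as the free Banach lattice `FBL(A)`. -/
def IsFreeOn {P : Type} [NormedAddCommGroup P] [NormedSpace ℝ P] [Lattice P] {A : Type w}
    (δ : A → P) : Prop :=
  (∀ a, ‖δ a‖ = 1) ∧
  ∀ (X : Type) [NormedAddCommGroup X] [NormedSpace ℝ X] [Lattice X] [IsBanachLattice X]
    (f : A → X), BddAbove (Set.range fun a => ‖f a‖) →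
    ∃! T : P →L[ℝ] X, IsLatticeHom T ∧ (∀ a, T (δ a) = f a) ∧ ‖T‖ = ⨆ a, ‖f a‖

end Pool.Agent.MP_be51b2_an
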